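import Mathlib
import Pool.Agent.Lib.MP_959b39_lc.Red

set_option autoImplicit false

namespace Pool.Agent.Retired.MP_959b39_lc.TwoTerminalsHard

open Pool.Agent.Lib.MP_959b39_lc

/-- Clique reduces to Dual Separator for Two Terminals by a polynomial-time many-one reduction
sending parameter `k` to `k^2`; hence the latter problem is W[1]-hard. -/
theorem result : ∃ R : CliqueInst → DualInst,
    Nonempty (Turing.TM2ComputableInPolyTime CliqueInst.bits DualInst.code R) ∧
    ∀ x : CliqueInst, (R x).k = x.param ^ 2 ∧ (x.HasClique ↔ (R x).HasSep) :=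
  ⟨reduce, reduce_poly, fun x => ⟨rfl, yes_of_clique x, clique_of_yes x⟩⟩

end Pool.Agent.Retired.MP_959b39_lc.TwoTerminalsHard
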